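import Pool.Agent.Lib_helper35.RB_V2
import Pool.Agent.Lib_helper65.RB.Red

/-! Blocks F4-1, F4-2, F4-3 of MP_247194_an (helper35). -/

namespace Pool.Agent.Lib_helper35.RB

open Filter Topology Pool.Agent.Lib_helper65.RB

/-- The solution of `y_{n+b} = 1/y_{n+b-a} + 1/y_n` with initial data `v`. -/
noncomputable def ysol (a b : ℕ) (v : ℕ → ℝ) (n : ℕ) : ℝ :=
  if h : n < b ∨ a = 0 ∨ b = 0 then v n
  else 1 / ysol a b v (n - a) + 1 / ysol a b v (n - b)
termination_by n
decreasing_by all_goals omega

theorem ysol_init {a b : ℕ} {v : ℕ → ℝ} {n : ℕ} (h : n < b) : ysol a b v n = v n := by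
  rw [ysol, dif_pos (Or.inl h)]

theorem ysol_isSol {a b : ℕ} (ha : 0 < a) (hab : a ≤ b) (v : ℕ → ℝ) : IsSol a b (ysol a b v) := by
  intro n
  conv_lhs => rw [ysol]
  rw [dif_neg (by omega)]
  congr 3
  omega

theorem sol_ext {a b : ℕ} (ha : 0 < a) (hab : a ≤ b) {w w' : ℕ → ℝ} (h : IsSol a b w)
    (h' : IsSol a b w') (h0 : ∀ n < b, w n = w' n) : ∀ n, w n = w' n := by
  intro n
  induction n using Nat.strong_induction_on with
  | _ n ih =>
    by_cases hn : n < b
    · exact h0 n hn
    · obtain ⟨j, rfl⟩ : ∃ j, n = j + b := ⟨n - b, by omega⟩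
      rw [h j, h' j, ih _ (by omega), ih _ (by omega)]

/-- The recursion of `BasinM k l l` for `k ≤ l`. -/
theorem isSol_iff {k l : ℕ} {x : ℕ → ℝ} :
    (∀ n : ℕ, x (n + l + 1) = 1 / x (n + l - k) + 1 / x (n + l - l)) ↔ IsSol (k + 1) (l + 1) x := by
  unfold IsSol
  refine forall_congr' fun n => ?_
  rw [show n + l - l = n by omega, show n + (l + 1) - (k + 1) = n + l - k by omega,
    show n + (l + 1) = n + l + 1 by ring]

theorem BasinM_comm (k l m : ℕ) : BasinM k l m = BasinM l k m := by
  unfold BasinM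
  ext v
  simp only [Set.mem_ofPred_eq]
  refine and_congr_right fun _ => exists_congr fun x => and_congr_right fun _ =>
    and_congr_left fun _ => forall_congr' fun n => ?_
  rw [add_comm (1 / x (n + m - k))]

theorem mem_BasinM {k l : ℕ} {v : Fin (l + 1) → ℝ} : v ∈ BasinM k l l ↔
    (∀ i, 0 < v i) ∧ ∃ x : ℕ → ℝ, (∀ i : Fin (l + 1), x i = v i) ∧ IsSol (k + 1) (l + 1) x ∧
      Tendsto x atTop (𝓝 (√2)) := by
  unfold BasinM
  simp only [Set.mem_ofPred_eq, isSol_iff]

theorem basinM_all {k l : ℕ} (hkl : k ≤ l) (h : padicValNat 2 (k + 1) ≠ padicValNat 2 (l + 1)) :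
    BasinM k l l = {v | ∀ i, 0 < v i} := by
  ext v
  rw [mem_BasinM]
  simp only [Set.mem_ofPred_eq]
  refine ⟨fun h => h.1, fun hv => ⟨hv, ?_⟩⟩
  set x : ℕ → ℝ := ysol (k + 1) (l + 1) (fun n => if hn : n < l + 1 then v ⟨n, hn⟩ else 1) with hx
  have hxi : ∀ n (hn : n < l + 1), x n = v ⟨n, hn⟩ := by
    intro n hn
    rw [hx, ysol_init hn, dif_pos hn]
  have hsol : IsSol (k + 1) (l + 1) x := ysol_isSol (by omega) (by omega) _
  refine ⟨x, fun i => hxi i i.2, hsol, ?_⟩
  exact tendsto_of_v2 (k + 1) (l + 1) (by omega) (by omega) h x hsol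
    (fun n hn => by rw [hxi n hn]; exact hv _)

theorem basinM_not_all {k l : ℕ} (hkl : k ≤ l)
    (h : padicValNat 2 (k + 1) = padicValNat 2 (l + 1)) :
    BasinM k l l ≠ {v | ∀ i, 0 < v i} := by
  intro heq
  obtain ⟨d, a', b', hd0, hc, ha', hb'⟩ := Nat.exists_coprime' (m := k + 1) (n := l + 1)
    (Nat.gcd_pos_of_pos_left _ (by omega))
  rw [mul_comm] at ha' hb'
  have ha0' : 0 < a' := by
    rcases Nat.eq_zero_or_pos a' with h | h
    · subst h; omega
    · exact h
  have hb0' : 0 < b' := by
    rcases Nat.eq_zero_or_pos b' with h | h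
    · subst h; omega
    · exact h
  have hab' : a' ≤ b' := by
    have : d * a' ≤ d * b' := by omega
    exact Nat.le_of_mul_le_mul_left this hd0
  have hval : padicValNat 2 a' = padicValNat 2 b' := by
    rw [ha', hb', padicValNat.mul hd0.ne' ha0'.ne', padicValNat.mul hd0.ne' hb0'.ne'] at h
    omega
  have hodd : ¬ Even a' ∧ ¬ Even b' := by
    by_contra hcon
    have hone : (2 ∣ a') ∨ (2 ∣ b') := by
      rw [← even_iff_two_dvd, ← even_iff_two_dvd]
      tauto
    have hboth : (2 ∣ a') ∧ (2 ∣ b') := by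
      rcases hone with h1 | h1
      · refine ⟨h1, ?_⟩
        by_contra h2
        rw [padicValNat.eq_zero_of_not_dvd h2] at hval
        have := one_le_padicValNat_of_dvd ha0'.ne' h1
        omega
      · refine ⟨?_, h1⟩
        by_contra h2
        rw [padicValNat.eq_zero_of_not_dvd h2] at hval
        have := one_le_padicValNat_of_dvd hb0'.ne' h1
        omega
    have h3 := Nat.dvd_gcd hboth.1 hboth.2
    rw [hc] at h3
    omega
  -- the period two solution
  set z : ℕ → ℝ := fun n => if Even (n / d) then 1 else 2 with hz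
  have hzpos : ∀ n, 0 < z n := by
    intro n
    simp only [hz]
    split_ifs <;> norm_num
  have hzsol : IsSol (k + 1) (l + 1) z := by
    intro n
    have e1 : (n + (l + 1)) / d = n / d + b' := by
      rw [hb', Nat.add_mul_div_left _ _ hd0]
    have e2 : (n + (l + 1) - (k + 1)) / d = n / d + (b' - a') := by
      have : n + (l + 1) - (k + 1) = n + d * (b' - a') := by
        rw [Nat.mul_sub, ← ha', ← hb']
        omega
      rw [this, Nat.add_mul_div_left _ _ hd0]
    have e3 : Even (n / d + b') ↔ ¬ Even (n / d) := by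
      rw [Nat.even_add]; tauto
    have e4 : Even (n / d + (b' - a')) ↔ Even (n / d) := by
      have : Even (b' - a') := by
        rw [Nat.even_sub hab']; tauto
      rw [Nat.even_add]; tauto
    simp only [hz, e1, e2, e3, e4]
    by_cases he : Even (n / d)
    · simp only [he, not_true_eq_false, if_false, if_true]; norm_num
    · simp only [he, not_false_eq_true, if_false, if_true]; norm_num
  have hmem : (fun i : Fin (l + 1) => z i) ∈ BasinM k l l := by
    rw [heq]
    exact fun i => hzpos i
  rw [mem_BasinM] at hmem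
  obtain ⟨-, x, hx, hxs, hxt⟩ := hmem
  have hxz : ∀ n, x n = z n := by
    apply sol_ext (by omega) (by omega) hxs hzsol
    intro n hn
    exact hx ⟨n, hn⟩
  have hs1 : (√2) ^ 2 = 2 := Real.sq_sqrt (by norm_num)
  have hs0 : 0 < √2 := by positivity
  have hlow : 1.4 < √2 := by
    by_contra hcon
    nlinarith [not_lt.mp hcon]
  have hhigh : √2 < 1.5 := by
    by_contra hcon
    nlinarith [not_lt.mp hcon]
  obtain ⟨N, hN⟩ := Metric.tendsto_atTop.mp hxt 0.1 (by norm_num)
  have h1 := hN N le_rfl
  rw [hxz, Real.dist_eq, abs_lt] at h1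
  simp only [hz] at h1
  split_ifs at h1 <;> linarith [h1.1, h1.2]

theorem basinM_self (k : ℕ) : BasinM k k k = {fun _ => √2} := by
  ext v
  rw [mem_BasinM, Set.mem_singleton_iff]
  constructor
  · rintro ⟨hv, x, hx, hxs, hxt⟩
    have hpos := sol_pos (by omega) le_rfl hxs (fun n hn => by
      rw [show x n = v ⟨n, hn⟩ from hx ⟨n, hn⟩]; exact hv _)
    have hstep : ∀ n, x (n + (k + 1)) = 2 / x n := by
      intro n
      rw [hxs n, show n + (k + 1) - (k + 1) = n by omega]
      ring
    have hper : ∀ n, x (n + (k + 1) + (k + 1)) = x n := by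
      intro n
      rw [hstep, hstep]
      have := hpos n
      field_simp
    have hper2 : ∀ j n, x (n + j * ((k + 1) + (k + 1))) = x n := by
      intro j
      induction j with
      | zero => intro n; simp
      | succ j ih =>
        intro n
        rw [show n + (j + 1) * ((k + 1) + (k + 1)) = n + j * ((k + 1) + (k + 1)) + (k + 1) + (k + 1) by
          ring, hper, ih]
    funext i
    rw [← hx i]
    have h1 : Tendsto (fun j : ℕ => x (i + j * ((k + 1) + (k + 1)))) atTop (𝓝 (√2)) := by
      refine hxt.comp ?_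
      refine tendsto_atTop_mono (fun j => ?_) tendsto_id
      simp only [id_eq]
      nlinarith [Nat.zero_le (j * k), Nat.zero_le (i : ℕ)]
    simp only [hper2] at h1
    exact tendsto_nhds_unique tendsto_const_nhds h1
  · rintro rfl
    refine ⟨fun _ => by positivity, fun _ => √2, fun _ => rfl, ?_, tendsto_const_nhds⟩
    intro n
    have hs0 : √2 ≠ 0 := by positivity
    have hs1 : √2 * √2 = 2 := Real.mul_self_sqrt (by norm_num)
    field_simp
    linarith

theorem basin_all (k l : ℕ) (h : padicValNat 2 (k + 1) ≠ padicValNat 2 (l + 1)) :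
    Basin k l = {v | ∀ i, 0 < v i} := by
  unfold Basin
  rcases le_total k l with hkl | hkl
  · generalize hm : max k l = m
    rw [max_eq_right hkl] at hm
    subst hm
    exact basinM_all hkl h
  · generalize hm : max k l = m
    rw [max_eq_left hkl] at hm
    subst hm
    rw [BasinM_comm]
    exact basinM_all hkl h.symm

theorem basin_not_all (k l : ℕ) (h : padicValNat 2 (k + 1) = padicValNat 2 (l + 1)) :
    Basin k l ≠ {v | ∀ i, 0 < v i} := by
  unfold Basin
  rcases le_total k l with hkl | hkl
  · generalize hm : max k l = m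
    rw [max_eq_right hkl] at hm
    subst hm
    exact basinM_not_all hkl h
  · generalize hm : max k l = m
    rw [max_eq_left hkl] at hm
    subst hm
    rw [BasinM_comm]
    exact basinM_not_all hkl h.symm

theorem basin_self (k : ℕ) : Basin k k = {fun _ => √2} := by
  unfold Basin
  generalize hm : max k k = m
  rw [max_self] at hm
  subst hm
  exact basinM_self k

end Pool.Agent.Lib_helper35.RB
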