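import Pool.Agent.Lib_helper65.RB.Mean

/-! Block IR-2 of MP_247194_an (helper35). -/

namespace Pool.Agent.Lib_helper35.RB

theorem irrational_exponent (s : ℕ) (hs : 4 ≤ s) :
    Irrational (Real.log (((s : ℝ) - 1) / (s - 2)) / Real.log (2 * (((s : ℝ) - 1) / (s - 2)))) := by
  obtain ⟨n, rfl⟩ : ∃ n, s = n + 2 := ⟨s - 2, by omega⟩
  have hn : 2 ≤ n := by omega
  have hn0 : (0 : ℝ) < n := by positivity
  have e1 : ((n + 2 : ℕ) : ℝ) - 1 = n + 1 := by push_cast; ring
  have e2 : ((n + 2 : ℕ) : ℝ) - 2 = n := by push_cast; ring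
  rw [e1, e2]
  set x : ℝ := ((n : ℝ) + 1) / n with hx
  have hx1 : 1 < x := by
    rw [hx, one_lt_div hn0]; linarith
  have hl0 : 0 < Real.log x := Real.log_pos hx1
  have hl1 : Real.log (2 * x) = Real.log 2 + Real.log x :=
    Real.log_mul (by norm_num) (by linarith)
  have hl2 : 0 < Real.log 2 := Real.log_pos (by norm_num)
  rintro ⟨r, hr⟩
  have hr0 : (0 : ℝ) < r := by rw [hr]; rw [hl1]; positivity
  have hr1 : (r : ℝ) < 1 := by
    rw [hr, hl1, div_lt_one (by positivity)]; linarith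
  have hr0' : 0 < r := by exact_mod_cast hr0
  have hr1' : r < 1 := by exact_mod_cast hr1
  -- numerator and denominator
  obtain ⟨P, hP⟩ : ∃ P : ℕ, r.num = P := ⟨r.num.toNat, (Int.toNat_of_nonneg (Rat.num_pos.mpr hr0').le).symm⟩
  set Q : ℕ := r.den with hQ
  have hQ0 : 0 < Q := r.den_pos
  have hP0 : 0 < P := by
    have := Rat.num_pos.mpr hr0'
    omega
  have hPQ : P < Q := by
    have h1 : (r : ℝ) = P / Q := by
      rw [Rat.cast_def, hP, hQ]; simp
    rw [h1, div_lt_one (by positivity)] at hr1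
    exact_mod_cast hr1
  have hrPQ : (r : ℝ) = P / Q := by
    rw [Rat.cast_def, hP, hQ]; simp
  have hkey : (Q : ℝ) * Real.log x = P * (Real.log 2 + Real.log x) := by
    rw [hrPQ, hl1] at hr
    rw [div_eq_div_iff (by positivity) (by positivity)] at hr
    linarith
  obtain ⟨d, hd⟩ : ∃ d, Q = P + d := ⟨Q - P, by omega⟩
  have hd0 : 0 < d := by omega
  have hkey2 : (d : ℝ) * Real.log x = P * Real.log 2 := by
    rw [hd] at hkey
    push_cast at hkey
    linarith
  have hkey3 : x ^ d = 2 ^ P := by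
    rw [← Real.log_pow, ← Real.log_pow] at hkey2
    exact Real.log_injOn_pos (Set.mem_Ioi.mpr (by positivity)) (Set.mem_Ioi.mpr (by positivity)) hkey2
  have hkey4 : ((n : ℝ) + 1) ^ d = 2 ^ P * (n : ℝ) ^ d := by
    rw [hx, div_pow, div_eq_iff (by positivity)] at hkey3
    exact hkey3
  have hkey5 : (n + 1) ^ d = 2 ^ P * n ^ d := by exact_mod_cast hkey4
  have hdvd : n ∣ (n + 1) ^ d := by
    rw [hkey5]
    exact Dvd.dvd.mul_left (dvd_pow_self n hd0.ne') _
  have hcop : Nat.Coprime n ((n + 1) ^ d) := by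
    apply Nat.Coprime.pow_right
    simp
  have h1 : n = 1 := Nat.Coprime.eq_one_of_dvd hcop hdvd
  omega

end Pool.Agent.Lib_helper35.RB
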