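import Pool.Agent.Lib_helper65.RB.Mean

/-! Block OSC of MP_247194_an (helper35). -/

namespace Pool.Agent.Lib_helper35.RB

open Filter Topology Pool.Agent.Lib_helper65.RB

/-! ### Existence of solutions -/

/-- The window `(w n, ..., w (n+4))` of the solution with initial window `v`. -/
noncomputable def win (v : ℝ × ℝ × ℝ × ℝ × ℝ) : ℕ → ℝ × ℝ × ℝ × ℝ × ℝ
  | 0 => v
  | n + 1 => ((win v n).2.1, (win v n).2.2.1, (win v n).2.2.2.1, (win v n).2.2.2.2,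
      mean (n + 5) (win v n).2.2.2.2 (win v n).1)

theorem win_isW (v : ℝ × ℝ × ℝ × ℝ × ℝ) : IsW 1 5 (fun n => (win v n).1) := by
  intro n
  have h : n + 5 - 1 = n + 4 := by omega
  rw [h]
  rfl

/-! ### The scaling relation -/

theorem mean_even {j : ℕ} (hj : Even j) (x y : ℝ) : mean j x y = (x + y) / 2 := if_pos hj

theorem mean_odd {j : ℕ} (hj : ¬ Even j) (x y : ℝ) : mean j x y = 2 * x * y / (x + y) := if_neg hj

/-- Two-sided bounds for the limit from the window `(2, 2, 1, t, t)`. -/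
def Bd (t c C : ℝ) : Prop :=
  ∀ (w : ℕ → ℝ) (L : ℝ), IsW 1 5 w →
      w 0 = 2 → w 1 = 2 → w 2 = 1 → w 3 = t → w 4 = t → Tendsto w atTop (𝓝 L) → c ≤ L ∧ L ≤ C

theorem forall_lt_five {P : ℕ → Prop} : (∀ n < 5, P n) ↔ P 0 ∧ P 1 ∧ P 2 ∧ P 3 ∧ P 4 := by
  constructor
  · intro h
    exact ⟨h 0 (by norm_num), h 1 (by norm_num), h 2 (by norm_num), h 3 (by norm_num),
      h 4 (by norm_num)⟩
  · rintro ⟨h0, h1, h2, h3, h4⟩ n hn
    interval_cases n <;> assumption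

/-- window after six steps -/
theorem six_steps {s : ℝ} (hs : 0 < s) {w : ℕ → ℝ} (hw : IsW 1 5 w) (h0 : w 0 = 2) (h1 : w 1 = 2)
    (h2 : w 2 = 1) (h3 : w 3 = s) (h4 : w 4 = s) :
    (1 ≤ w 6 ∧ w 6 ≤ 1 + s) ∧ (1 ≤ w 7 ∧ w 7 ≤ 1 + s) ∧ (1 / 2 ≤ w 8 ∧ w 8 ≤ 1 / 2 + s) ∧
    (2 * s / (1 + 2 * s) ≤ w 9 ∧ w 9 ≤ 2 * s) ∧ (2 * s / (1 + 2 * s) ≤ w 10 ∧ w 10 ≤ 2 * s) := by
  have e5 : w 5 = 2 * s * 2 / (s + 2) := by
    have := hw 0
    rw [mean_odd (by decide)] at this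
    simpa [h0, h4] using this
  have e6 : w 6 = (w 5 + 2) / 2 := by
    have := hw 1
    rw [mean_even (by decide)] at this
    simpa [h1] using this
  have e7 : w 7 = 2 * w 6 * 1 / (w 6 + 1) := by
    have := hw 2
    rw [mean_odd (by decide)] at this
    simpa [h2] using this
  have e8 : w 8 = (w 7 + s) / 2 := by
    have := hw 3
    rw [mean_even (by decide)] at this
    simpa [h3] using this
  have e9 : w 9 = 2 * w 8 * s / (w 8 + s) := by
    have := hw 4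
    rw [mean_odd (by decide)] at this
    simpa [h4] using this
  have e10 : w 10 = (w 9 + w 5) / 2 := by
    have := hw 5
    rw [mean_even (by decide)] at this
    simpa using this
  have b5 : 2 * s / (1 + 2 * s) ≤ w 5 ∧ w 5 ≤ 2 * s := by
    rw [e5]
    constructor
    · rw [div_le_div_iff₀ (by positivity) (by positivity)]
      nlinarith [mul_pos hs hs]
    · rw [div_le_iff₀ (by positivity)]
      nlinarith [mul_pos hs hs]
  have p5 : 0 < w 5 := lt_of_lt_of_le (by positivity) b5.1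
  have b6 : 1 ≤ w 6 ∧ w 6 ≤ 1 + s := by
    rw [e6]
    constructor <;> linarith [b5.2]
  have b7 : 1 ≤ w 7 ∧ w 7 ≤ 1 + s := by
    rw [e7]
    constructor
    · rw [le_div_iff₀ (by linarith)]
      linarith [b6.1]
    · rw [div_le_iff₀ (by linarith)]
      nlinarith [b6.1, b6.2]
  have b8 : 1 / 2 ≤ w 8 ∧ w 8 ≤ 1 / 2 + s := by
    rw [e8]
    constructor <;> linarith [b7.1, b7.2]
  have b9 : 2 * s / (1 + 2 * s) ≤ w 9 ∧ w 9 ≤ 2 * s := by
    rw [e9]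
    have p8 : 0 < w 8 := by linarith [b8.1]
    constructor
    · rw [div_le_div_iff₀ (by positivity) (by positivity)]
      nlinarith [mul_pos hs hs, b8.1, mul_nonneg (mul_pos hs hs).le (sub_nonneg.mpr b8.1)]
    · rw [div_le_iff₀ (by positivity)]
      nlinarith [mul_pos hs hs]
  have b10 : 2 * s / (1 + 2 * s) ≤ w 10 ∧ w 10 ≤ 2 * s := by
    rw [e10]
    constructor <;> linarith [b5.1, b5.2, b9.1, b9.2]
  exact ⟨b6, b7, b8, b9, b10⟩

theorem Bd_step {t c C : ℝ} (ht : 0 < t) (h : Bd t c C) :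
    Bd (t / 4) (c / (2 * (1 + t / 2))) (C * (1 + t / 2) / 2) := by
  intro w L hw h0 h1 h2 h3 h4 hL
  obtain ⟨b6, b7, b8, b9, b10⟩ := six_steps (by positivity : 0 < t / 4) hw h0 h1 h2 h3 h4
  -- the comparison solution
  set v : ℕ → ℝ := fun n => (win (2, 2, 1, t, t) n).1 with hv
  have hvW : IsW 1 5 v := win_isW _
  have v0 : v 0 = 2 := rfl
  have v1 : v 1 = 2 := rfl
  have v2 : v 2 = 1 := rfl
  have v3 : v 3 = t := rfl
  have v4 : v 4 = t := rfl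
  have hvpos : ∀ n < 5, 0 < v n := by
    rw [forall_lt_five]
    rw [v0, v1, v2, v3, v4]
    refine ⟨by norm_num, by norm_num, by norm_num, ht, ht⟩
  obtain ⟨L', -, hL'⟩ := hvW.converges (by norm_num) (by norm_num) (by norm_num) hvpos
  obtain ⟨hc, hC⟩ := h v L' hvW v0 v1 v2 v3 v4 hL'
  -- the shifted solution
  have hw' : IsW 1 5 (fun n => w (n + 6)) := by
    intro n
    have e1 := hw (n + 6)
    have e2 : n + 6 + 5 = n + 5 + 6 := by ring
    have e3 : n + 6 + 5 - 1 = n + 5 - 1 + 6 := by omega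
    have e4 : mean (n + 6 + 5) (w (n + 6 + 5 - 1)) (w (n + 6)) =
        mean (n + 5) (w (n + 6 + 5 - 1)) (w (n + 6)) := by
      unfold mean
      have e5 : Even (n + 6 + 5) ↔ Even (n + 5) := by
        rw [show n + 6 + 5 = n + 5 + 6 by ring, Nat.even_add]
        simp [show Even 6 by decide]
      simp only [e5]
    rw [e4] at e1
    rw [e3, e2] at e1
    exact e1
  have hwL' : Tendsto (fun n => w (n + 6)) atTop (𝓝 L) := hL.comp (tendsto_add_atTop_nat 6)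
  have hD : (0 : ℝ) < 1 + t / 2 := by positivity
  constructor
  · have hlow := IsW.mono (a := 1) (b := 5) (by norm_num) (by norm_num) (by norm_num)
      (hvW.smul (c := 1 / (2 * (1 + t / 2))) (by positivity)) hw'
      (fun n hn => mul_pos (by positivity) (hvpos n hn)) (by
        rw [forall_lt_five]
        simp only [v0, v1, v2, v3, v4, Nat.reduceAdd]
        refine ⟨?_, ?_, ?_, ?_, ?_⟩
        · refine le_trans ?_ b6.1
          rw [div_mul_eq_mul_div, div_le_one (by positivity)]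
          linarith
        · refine le_trans ?_ b7.1
          rw [div_mul_eq_mul_div, div_le_one (by positivity)]
          linarith
        · refine le_trans ?_ b8.1
          rw [div_mul_eq_mul_div, div_le_div_iff₀ (by positivity) (by positivity)]
          linarith
        · refine le_trans (le_of_eq ?_) b9.1
          field_simp
          ring
        · refine le_trans (le_of_eq ?_) b10.1
          field_simp
          ring)
    have hlim : 1 / (2 * (1 + t / 2)) * L' ≤ L :=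
      le_of_tendsto_of_tendsto' (hL'.const_mul _) hwL' hlow
    refine le_trans ?_ hlim
    rw [div_mul_eq_mul_div, one_mul]
    gcongr
  · have hup := IsW.mono (a := 1) (b := 5) (by norm_num) (by norm_num) (by norm_num) hw'
      (hvW.smul (c := (1 + t / 2) / 2) (by positivity))
      (by
        rw [forall_lt_five]
        simp only [Nat.reduceAdd]
        have p9 : 0 < 2 * (t / 4) / (1 + 2 * (t / 4)) := by positivity
        refine ⟨?_, ?_, ?_, ?_, ?_⟩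
        · linarith [b6.1]
        · linarith [b7.1]
        · linarith [b8.1]
        · exact lt_of_lt_of_le p9 b9.1
        · exact lt_of_lt_of_le p9 b10.1) (by
        rw [forall_lt_five]
        simp only [v0, v1, v2, v3, v4, Nat.reduceAdd]
        refine ⟨?_, ?_, ?_, ?_, ?_⟩
        · linarith [b6.2]
        · linarith [b7.2]
        · linarith [b8.2]
        · nlinarith [b9.2, mul_pos ht ht]
        · nlinarith [b10.2, mul_pos ht ht])
    have hlim : L ≤ (1 + t / 2) / 2 * L' :=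
      le_of_tendsto_of_tendsto' hwL' (hL'.const_mul _) hup
    refine le_trans hlim ?_
    have : (1 + t / 2) / 2 * L' ≤ (1 + t / 2) / 2 * C := by gcongr
    linarith

theorem Bd_iter {t c C : ℝ} (ht : 0 < t) (ht1 : t ≤ 1 / 2) (hc : 0 ≤ c) (hC : 0 ≤ C) (h : Bd t c C) (k : ℕ) :
    Bd (t / 4 ^ k) (c / (2 ^ k * (1 + t - t / 4 ^ k))) (C * (1 + t - t / 4 ^ k) / 2 ^ k) := by
  induction k with
  | zero => simpa using h
  | succ k ih =>
    have h1 := Bd_step (by positivity) ih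
    have ep : (0 : ℝ) < 4 ^ k := by positivity
    have e1 : t / 4 ^ k / 4 = t / 4 ^ (k + 1) := by rw [pow_succ, div_div]
    rw [e1] at h1
    have hx : 0 < t / 4 ^ k := by positivity
    have hx1 : t / 4 ^ k ≤ t := div_le_self ht.le (one_le_pow₀ (by norm_num))
    have e2 : t / 4 ^ (k + 1) = t / 4 ^ k / 4 := e1.symm
    set x : ℝ := t / 4 ^ k with hxdef
    -- the factor
    have hf : (1 + t - x) * (1 + x / 2) ≤ 1 + t - t / 4 ^ (k + 1) := by
      rw [e2]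
      nlinarith
    have hpos1 : 0 < 1 + t - x := by linarith
    have hpos2 : 0 < 1 + t - t / 4 ^ (k + 1) := lt_of_lt_of_le (by positivity) hf
    intro w L a1 a2 a3 a4 a5 a6 a7
    obtain ⟨g1, g2⟩ := h1 w L a1 a2 a3 a4 a5 a6 a7
    constructor
    · refine le_trans ?_ g1
      rw [div_div]
      apply div_le_div_of_nonneg_left hc (by positivity)
      calc 2 ^ k * (1 + t - x) * (2 * (1 + x / 2)) = 2 ^ (k + 1) * ((1 + t - x) * (1 + x / 2)) := by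
            rw [pow_succ]; ring
        _ ≤ 2 ^ (k + 1) * (1 + t - t / 4 ^ (k + 1)) := by gcongr
    · refine le_trans g2 ?_
      calc C * (1 + t - x) / 2 ^ k * (1 + x / 2) / 2 = C * ((1 + t - x) * (1 + x / 2)) / 2 ^ (k + 1) := by
            rw [pow_succ]; field_simp
        _ ≤ C * (1 + t - t / 4 ^ (k + 1)) / 2 ^ (k + 1) := by gcongr

/-! ### Certified numerics -/

/-- two rounded down steps (harmonic, then arithmetic) -/
def lo2 (s : ℕ × ℕ × ℕ × ℕ × ℕ) : ℕ × ℕ × ℕ × ℕ × ℕ :=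
  (s.2.2.1, s.2.2.2.1, s.2.2.2.2, 2 * s.2.2.2.2 * s.1 / (s.2.2.2.2 + s.1),
    (2 * s.2.2.2.2 * s.1 / (s.2.2.2.2 + s.1) + s.2.1) / 2)

/-- two rounded up steps -/
def up2 (s : ℕ × ℕ × ℕ × ℕ × ℕ) : ℕ × ℕ × ℕ × ℕ × ℕ :=
  (s.2.2.1, s.2.2.2.1, s.2.2.2.2, 2 * s.2.2.2.2 * s.1 / (s.2.2.2.2 + s.1) + 1,
    (2 * s.2.2.2.2 * s.1 / (s.2.2.2.2 + s.1) + 1 + s.2.1) / 2 + 1)

theorem harm_lo {a b : ℕ} {x y : ℝ} (hx : 0 < x) (hy : 0 < y) (ha : (a : ℝ) ≤ x)
    (hb : (b : ℝ) ≤ y) : ((2 * a * b / (a + b) : ℕ) : ℝ) ≤ 2 * x * y / (x + y) := by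
  refine (Nat.cast_div_le).trans ?_
  push_cast
  have ha0 : (0 : ℝ) ≤ a := Nat.cast_nonneg a
  have hb0 : (0 : ℝ) ≤ b := Nat.cast_nonneg b
  rcases (add_nonneg ha0 hb0).eq_or_lt with h | h
  · rw [← h, div_zero]
    positivity
  · rw [div_le_div_iff₀ h (by positivity)]
    have h1 : (a : ℝ) * (b * x) ≤ y * (a * x) := by
      have := mul_le_mul_of_nonneg_left hb (mul_nonneg ha0 hx.le)
      linarith
    have h2 : (b : ℝ) * (a * y) ≤ x * (b * y) := by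
      have := mul_le_mul_of_nonneg_left ha (mul_nonneg hb0 hy.le)
      linarith
    nlinarith

theorem harm_up {a b : ℕ} {x y : ℝ} (hx : 0 < x) (hy : 0 < y) (ha : x ≤ (a : ℝ))
    (hb : y ≤ (b : ℝ)) : 2 * x * y / (x + y) ≤ ((2 * a * b / (a + b) + 1 : ℕ) : ℝ) := by
  have ha0 : (0 : ℝ) < a := lt_of_lt_of_le hx ha
  have hb0 : (0 : ℝ) < b := lt_of_lt_of_le hy hb
  have h0 : 0 < a + b := by
    have : (0 : ℝ) < ((a + b : ℕ) : ℝ) := by push_cast; positivity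
    exact_mod_cast this
  have h1 : 2 * a * b < (a + b) * (2 * a * b / (a + b) + 1) := Nat.lt_mul_div_succ _ h0
  have h2 : (2 * a * b : ℝ) / (a + b) ≤ ((2 * a * b / (a + b) + 1 : ℕ) : ℝ) := by
    rw [div_le_iff₀ (by positivity)]
    have h3 : ((2 * a * b : ℕ) : ℝ) < (((a + b) * (2 * a * b / (a + b) + 1) : ℕ) : ℝ) := by
      exact_mod_cast h1
    push_cast at h3 ⊢
    linarith
  refine le_trans ?_ h2
  rw [div_le_div_iff₀ (by positivity) (by positivity)]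
  have h4 : x * y * a ≤ x * (a * b) := by
    have := mul_le_mul_of_nonneg_left hb (mul_nonneg hx.le ha0.le)
    linarith
  have h5 : x * y * b ≤ y * (a * b) := by
    have := mul_le_mul_of_nonneg_left ha (mul_nonneg hy.le hb0.le)
    linarith
  nlinarith

theorem arith_lo {a b : ℕ} {x y : ℝ} (ha : (a : ℝ) ≤ x)
    (hb : (b : ℝ) ≤ y) : (((a + b) / 2 : ℕ) : ℝ) ≤ (x + y) / 2 := by
  refine (Nat.cast_div_le).trans ?_
  push_cast
  linarith

theorem arith_up {a b : ℕ} {x y : ℝ} (ha : x ≤ (a : ℝ))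
    (hb : y ≤ (b : ℝ)) : (x + y) / 2 ≤ (((a + b) / 2 + 1 : ℕ) : ℝ) := by
  have h1 : a + b < 2 * ((a + b) / 2 + 1) := Nat.lt_mul_div_succ _ (by norm_num)
  have h2 : ((a + b : ℕ) : ℝ) < ((2 * ((a + b) / 2 + 1) : ℕ) : ℝ) := by exact_mod_cast h1
  push_cast at h2 ⊢
  linarith

/-- lower bounds for a window -/
def Lo5 (s : ℕ × ℕ × ℕ × ℕ × ℕ) (w : ℕ → ℝ) (n : ℕ) : Prop :=
  (s.1 : ℝ) ≤ w n ∧ (s.2.1 : ℝ) ≤ w (n + 1) ∧ (s.2.2.1 : ℝ) ≤ w (n + 2) ∧
    (s.2.2.2.1 : ℝ) ≤ w (n + 3) ∧ (s.2.2.2.2 : ℝ) ≤ w (n + 4)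

/-- upper bounds for a window -/
def Up5 (s : ℕ × ℕ × ℕ × ℕ × ℕ) (w : ℕ → ℝ) (n : ℕ) : Prop :=
  w n ≤ (s.1 : ℝ) ∧ w (n + 1) ≤ (s.2.1 : ℝ) ∧ w (n + 2) ≤ (s.2.2.1 : ℝ) ∧
    w (n + 3) ≤ (s.2.2.2.1 : ℝ) ∧ w (n + 4) ≤ (s.2.2.2.2 : ℝ)

theorem two_steps {w : ℕ → ℝ} (hw : IsW 1 5 w) {n : ℕ} (hn : Even n) :
    w (n + 5) = 2 * w (n + 4) * w n / (w (n + 4) + w n) ∧
      w (n + 6) = (w (n + 5) + w (n + 1)) / 2 := by
  constructor
  · have h1 := hw n
    have h2 : ¬ Even (n + 5) := by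
      rw [Nat.even_add]; simp [hn, show ¬ Even 5 by decide]
    rw [mean_odd h2] at h1
    exact h1
  · have h1 := hw (n + 1)
    have h2 : Even (n + 1 + 5) := by
      rw [show n + 1 + 5 = n + 6 by ring, Nat.even_add]; simp [hn, show Even 6 by decide]
    rw [mean_even h2] at h1
    exact h1

theorem lo_step {w : ℕ → ℝ} (hw : IsW 1 5 w) (hp : ∀ n, 0 < w n) {n : ℕ} (hn : Even n)
    {s : ℕ × ℕ × ℕ × ℕ × ℕ} (h : Lo5 s w n) : Lo5 (lo2 s) w (n + 2) := by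
  obtain ⟨h0, h1, h2, h3, h4⟩ := h
  obtain ⟨e5, e6⟩ := two_steps hw hn
  have g5 : ((2 * s.2.2.2.2 * s.1 / (s.2.2.2.2 + s.1) : ℕ) : ℝ) ≤ w (n + 5) := by
    rw [e5]
    exact harm_lo (hp _) (hp _) h4 h0
  have g6 : (((2 * s.2.2.2.2 * s.1 / (s.2.2.2.2 + s.1) + s.2.1) / 2 : ℕ) : ℝ) ≤ w (n + 6) := by
    rw [e6]
    exact arith_lo g5 h1
  exact ⟨h2, h3, h4, g5, g6⟩

theorem up_step {w : ℕ → ℝ} (hw : IsW 1 5 w) (hp : ∀ n, 0 < w n) {n : ℕ} (hn : Even n)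
    {s : ℕ × ℕ × ℕ × ℕ × ℕ} (h : Up5 s w n) : Up5 (up2 s) w (n + 2) := by
  obtain ⟨h0, h1, h2, h3, h4⟩ := h
  obtain ⟨e5, e6⟩ := two_steps hw hn
  have g5 : w (n + 5) ≤ ((2 * s.2.2.2.2 * s.1 / (s.2.2.2.2 + s.1) + 1 : ℕ) : ℝ) := by
    rw [e5]
    exact harm_up (hp _) (hp _) h4 h0
  have g6 : w (n + 6) ≤ (((2 * s.2.2.2.2 * s.1 / (s.2.2.2.2 + s.1) + 1 + s.2.1) / 2 + 1 : ℕ) : ℝ) := by
    rw [e6]
    exact arith_up g5 h1
  exact ⟨h2, h3, h4, g5, g6⟩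

theorem lo_iter {w : ℕ → ℝ} (hw : IsW 1 5 w) (hp : ∀ n, 0 < w n)
    {s : ℕ × ℕ × ℕ × ℕ × ℕ} (h : Lo5 s w 0) (k : ℕ) : Lo5 (lo2^[k] s) w (2 * k) := by
  induction k with
  | zero => exact h
  | succ k ih =>
    rw [Function.iterate_succ_apply']
    have h1 := lo_step hw hp (by simp : Even (2 * k)) ih
    rwa [show 2 * (k + 1) = 2 * k + 2 by ring]

theorem up_iter {w : ℕ → ℝ} (hw : IsW 1 5 w) (hp : ∀ n, 0 < w n)
    {s : ℕ × ℕ × ℕ × ℕ × ℕ} (h : Up5 s w 0) (k : ℕ) : Up5 (up2^[k] s) w (2 * k) := by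
  induction k with
  | zero => exact h
  | succ k ih =>
    rw [Function.iterate_succ_apply']
    have h1 := up_step hw hp (by simp : Even (2 * k)) ih
    rwa [show 2 * (k + 1) = 2 * k + 2 by ring]

/-- all entries are at least `c` -/
def AllGe (s : ℕ × ℕ × ℕ × ℕ × ℕ) (c : ℕ) : Prop :=
  c ≤ s.1 ∧ c ≤ s.2.1 ∧ c ≤ s.2.2.1 ∧ c ≤ s.2.2.2.1 ∧ c ≤ s.2.2.2.2

instance (s : ℕ × ℕ × ℕ × ℕ × ℕ) (c : ℕ) : Decidable (AllGe s c) := by
  unfold AllGe; infer_instance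

/-- all entries are at most `c` -/
def AllLe (s : ℕ × ℕ × ℕ × ℕ × ℕ) (c : ℕ) : Prop :=
  s.1 ≤ c ∧ s.2.1 ≤ c ∧ s.2.2.1 ≤ c ∧ s.2.2.2.1 ≤ c ∧ s.2.2.2.2 ≤ c

instance (s : ℕ × ℕ × ℕ × ℕ × ℕ) (c : ℕ) : Decidable (AllLe s c) := by
  unfold AllLe; infer_instance

theorem lo_num : AllGe (lo2^[110] (2 * 2 ^ 80, 2 * 2 ^ 80, 2 ^ 80, 3 * 2 ^ 56, 3 * 2 ^ 56))
    607936702749181806820 := by
  decide +kernel

theorem up_num : AllLe (up2^[110] (2 * 2 ^ 80, 2 * 2 ^ 80, 2 ^ 80, 3 * 2 ^ 55, 3 * 2 ^ 55))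
    429875117600405610617 := by
  decide +kernel

theorem window_pos {w : ℕ → ℝ} (hw : IsW 1 5 w) {t : ℝ} (ht : 0 < t) (h0 : w 0 = 2) (h1 : w 1 = 2)
    (h2 : w 2 = 1) (h3 : w 3 = t) (h4 : w 4 = t) : ∀ n, 0 < w n := by
  apply IsW.pos (by norm_num) (by norm_num) (by norm_num) hw
  rw [forall_lt_five, h0, h1, h2, h3, h4]
  exact ⟨by norm_num, by norm_num, by norm_num, ht, ht⟩

/-- the lower bound for the first phase -/
theorem phase_lo (w : ℕ → ℝ) (L : ℝ) (hw : IsW 1 5 w) (h0 : w 0 = 2) (h1 : w 1 = 2)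
    (h2 : w 2 = 1) (h3 : w 3 = 3 / 2 ^ 24) (h4 : w 4 = 3 / 2 ^ 24)
    (hL : Tendsto w atTop (𝓝 L)) : 607936702749181806820 / 2 ^ 80 ≤ L := by
  have hp := window_pos hw (by norm_num) h0 h1 h2 h3 h4
  have hw' : IsW 1 5 (fun n => 2 ^ 80 * w n) := hw.smul (by norm_num)
  have hp' : ∀ n, 0 < 2 ^ 80 * w n := fun n => mul_pos (by norm_num) (hp n)
  have hs : Lo5 (2 * 2 ^ 80, 2 * 2 ^ 80, 2 ^ 80, 3 * 2 ^ 56, 3 * 2 ^ 56)
      (fun n => 2 ^ 80 * w n) 0 := by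
    unfold Lo5
    simp only [zero_add, h0, h1, h2, h3, h4]
    refine ⟨?_, ?_, ?_, ?_, ?_⟩ <;> norm_num
  have hi := lo_iter hw' hp' hs 110
  obtain ⟨i0, i1, i2, i3, i4⟩ := hi
  obtain ⟨j0, j1, j2, j3, j4⟩ := lo_num
  have hb : ∀ n, 2 * 110 ≤ n → (607936702749181806820 : ℝ) ≤ 2 ^ 80 * w n := by
    intro n
    induction n using Nat.strong_induction_on with
    | _ n ih =>
      intro hn
      by_cases hn5 : n < 2 * 110 + 5
      · obtain ⟨r, rfl⟩ : ∃ r, n = 2 * 110 + r := ⟨n - 2 * 110, by omega⟩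
        have hr : r < 5 := by omega
        interval_cases r
        · exact le_trans (by exact_mod_cast j0) i0
        · exact le_trans (by exact_mod_cast j1) i1
        · exact le_trans (by exact_mod_cast j2) i2
        · exact le_trans (by exact_mod_cast j3) i3
        · exact le_trans (by exact_mod_cast j4) i4
      · obtain ⟨j, rfl⟩ : ∃ j, n = j + 5 := ⟨n - 5, by omega⟩
        have e := hw' j
        simp only at e
        rw [e]
        exact le_mean _ (by norm_num) (ih (j + 5 - 1) (by omega) (by omega))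
          (ih j (by omega) (by omega))
  rw [div_le_iff₀ (by positivity)]
  have hL' : Tendsto (fun n => 2 ^ 80 * w n) atTop (𝓝 (2 ^ 80 * L)) := hL.const_mul _
  have := ge_of_tendsto hL' (Filter.eventually_atTop.mpr ⟨2 * 110, hb⟩)
  linarith

/-- the upper bound for the second phase -/
theorem phase_up (w : ℕ → ℝ) (L : ℝ) (hw : IsW 1 5 w) (h0 : w 0 = 2) (h1 : w 1 = 2)
    (h2 : w 2 = 1) (h3 : w 3 = 3 / 2 ^ 25) (h4 : w 4 = 3 / 2 ^ 25)
    (hL : Tendsto w atTop (𝓝 L)) : L ≤ 429875117600405610617 / 2 ^ 80 := by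
  have hp := window_pos hw (by norm_num) h0 h1 h2 h3 h4
  have hw' : IsW 1 5 (fun n => 2 ^ 80 * w n) := hw.smul (by norm_num)
  have hp' : ∀ n, 0 < 2 ^ 80 * w n := fun n => mul_pos (by norm_num) (hp n)
  have hs : Up5 (2 * 2 ^ 80, 2 * 2 ^ 80, 2 ^ 80, 3 * 2 ^ 55, 3 * 2 ^ 55)
      (fun n => 2 ^ 80 * w n) 0 := by
    unfold Up5
    simp only [zero_add, h0, h1, h2, h3, h4]
    refine ⟨?_, ?_, ?_, ?_, ?_⟩ <;> norm_num
  have hi := up_iter hw' hp' hs 110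
  obtain ⟨i0, i1, i2, i3, i4⟩ := hi
  obtain ⟨j0, j1, j2, j3, j4⟩ := up_num
  have hb : ∀ n, 2 * 110 ≤ n → 2 ^ 80 * w n ≤ (429875117600405610617 : ℝ) := by
    intro n
    induction n using Nat.strong_induction_on with
    | _ n ih =>
      intro hn
      by_cases hn5 : n < 2 * 110 + 5
      · obtain ⟨r, rfl⟩ : ∃ r, n = 2 * 110 + r := ⟨n - 2 * 110, by omega⟩
        have hr : r < 5 := by omega
        interval_cases r
        · exact le_trans i0 (by exact_mod_cast j0)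
        · exact le_trans i1 (by exact_mod_cast j1)
        · exact le_trans i2 (by exact_mod_cast j2)
        · exact le_trans i3 (by exact_mod_cast j3)
        · exact le_trans i4 (by exact_mod_cast j4)
      · obtain ⟨j, rfl⟩ : ∃ j, n = j + 5 := ⟨n - 5, by omega⟩
        have e := hw' j
        simp only at e
        rw [e]
        exact mean_le_max _ (hp' _) (hp' _) (ih (j + 5 - 1) (by omega) (by omega))
          (ih j (by omega) (by omega))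
  rw [le_div_iff₀ (by positivity)]
  have hL' : Tendsto (fun n => 2 ^ 80 * w n) atTop (𝓝 (2 ^ 80 * L)) := hL.const_mul _
  have := le_of_tendsto hL' (Filter.eventually_atTop.mpr ⟨2 * 110, hb⟩)
  linarith

/-- small `t` of the form `t₀ / 4 ^ k` -/
theorem exists_small {t₀ : ℝ} (ht : 0 < t₀) (ht1 : t₀ < 1) {ε : ℝ} (hε : 0 < ε) :
    ∃ k : ℕ, 0 < t₀ / 4 ^ k ∧ t₀ / 4 ^ k < ε ∧ t₀ / 4 ^ k < 1 := by
  have h1 : Tendsto (fun k : ℕ => t₀ * (1 / 4 : ℝ) ^ k) atTop (𝓝 (t₀ * 0)) :=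
    (tendsto_pow_atTop_nhds_zero_of_lt_one (by norm_num) (by norm_num)).const_mul _
  rw [mul_zero] at h1
  obtain ⟨k, hk⟩ := (h1.eventually (gt_mem_nhds hε)).exists
  have e : t₀ / 4 ^ k = t₀ * (1 / 4 : ℝ) ^ k := by
    rw [one_div, inv_pow, div_eq_mul_inv]
  refine ⟨k, by positivity, by rw [e]; exact hk, ?_⟩
  exact lt_of_le_of_lt (div_le_self ht.le (one_le_pow₀ (by norm_num))) ht1

theorem sqrt_div_pow {t₀ : ℝ} (ht : 0 < t₀) (k : ℕ) : √(t₀ / 4 ^ k) = √t₀ / 2 ^ k := by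
  rw [Real.sqrt_div ht.le]
  congr 1
  rw [show (4 : ℝ) ^ k = (2 ^ k) ^ 2 by rw [← pow_mul, mul_comm, pow_mul]; norm_num]
  exact Real.sqrt_sq (by positivity)

theorem osc : ∃ M1 M2 : ℝ, 0 < M2 ∧ M2 * (1 + 1 / 10 ^ 7) < M1 ∧
    (∀ ε > 0, ∃ t, 0 < t ∧ t < ε ∧ t < 1 ∧ ∀ (w : ℕ → ℝ) (L : ℝ), IsW 1 5 w →
      w 0 = 2 → w 1 = 2 → w 2 = 1 → w 3 = t → w 4 = t → Tendsto w atTop (𝓝 L) →
      M1 * √t ≤ L) ∧
    (∀ ε > 0, ∃ t, 0 < t ∧ t < ε ∧ t < 1 ∧ ∀ (w : ℕ → ℝ) (L : ℝ), IsW 1 5 w →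
      w 0 = 2 → w 1 = 2 → w 2 = 1 → w 3 = t → w 4 = t → Tendsto w atTop (𝓝 L) →
      L ≤ M2 * √t) := by
  set t₁ : ℝ := 3 / 2 ^ 24 with ht₁
  set t₂ : ℝ := 3 / 2 ^ 25 with ht₂
  set c : ℝ := 607936702749181806820 / 2 ^ 80 with hc
  set C : ℝ := 429875117600405610617 / 2 ^ 80 with hC
  have ht₁0 : 0 < t₁ := by norm_num [ht₁]
  have ht₂0 : 0 < t₂ := by norm_num [ht₂]
  have hs1 : 0 < √t₁ := Real.sqrt_pos.mpr ht₁0
  have hs2 : 0 < √t₂ := Real.sqrt_pos.mpr ht₂0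
  have hq1 : √t₁ ^ 2 = t₁ := Real.sq_sqrt ht₁0.le
  have hq2 : √t₂ ^ 2 = t₂ := Real.sq_sqrt ht₂0.le
  refine ⟨c / ((1 + t₁) * √t₁), C * (1 + t₂) / √t₂, by positivity, ?_, ?_, ?_⟩
  · refine lt_of_pow_lt_pow_left₀ 2 (by positivity) ?_
    rw [mul_pow, div_pow, div_pow, mul_pow (1 + t₁), hq1, hq2]
    norm_num [ht₁, ht₂, hc, hC]
  · intro ε hε
    obtain ⟨k, hk0, hkε, hk1⟩ := exists_small ht₁0 (by norm_num [ht₁]) hε
    refine ⟨t₁ / 4 ^ k, hk0, hkε, hk1, fun w L hw h0 h1 h2 h3 h4 hL => ?_⟩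
    obtain ⟨B, hB⟩ : ∃ B : ℝ, 0 ≤ B ∧ Bd t₁ c B := by
      set v : ℕ → ℝ := fun n => (win (2, 2, 1, t₁, t₁) n).1 with hv
      have hvW : IsW 1 5 v := win_isW _
      refine ⟨2, by norm_num, fun w L hw h0 h1 h2 h3 h4 hL => ⟨phase_lo w L hw h0 h1 h2 h3 h4 hL, ?_⟩⟩
      have hb := hw.band (by norm_num) (by norm_num) (by norm_num) (k := 0) (m := t₁) (M := 2) ht₁0
        (by
          intro n _ hn
          have hn' : n < 5 := by omega
          revert n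
          simp only [zero_le, zero_add, forall_true_left]
          intro n _ hn
          revert n
          rw [show (∀ n < 5, n < 5 → t₁ ≤ w n ∧ w n ≤ 2) ↔ (∀ n < 5, t₁ ≤ w n ∧ w n ≤ 2) from
            ⟨fun h n hn => h n hn hn, fun h n hn _ => h n hn⟩, forall_lt_five, h0, h1, h2, h3, h4]
          norm_num [ht₁])
      exact le_of_tendsto' hL (fun n => (hb n (Nat.zero_le n)).2)
    have hBd := (Bd_iter ht₁0 (by norm_num [ht₁]) (by positivity) hB.1 hB.2 k) w L hw h0 h1 h2 h3 h4 hL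
    refine le_trans ?_ hBd.1
    rw [sqrt_div_pow ht₁0, div_mul_div_comm, div_le_div_iff₀ (by positivity) (by
      have : t₁ / 4 ^ k ≤ t₁ := div_le_self ht₁0.le (one_le_pow₀ (by norm_num))
      have : 0 < 1 + t₁ - t₁ / 4 ^ k := by linarith
      positivity)]
    have hx : 0 < t₁ / 4 ^ k := hk0
    have h5 : c * √t₁ * (2 ^ k * (1 + t₁ - t₁ / 4 ^ k)) ≤ c * √t₁ * (2 ^ k * (1 + t₁)) := by
      gcongr
      linarith
    linarith
  · intro ε hε
    obtain ⟨k, hk0, hkε, hk1⟩ := exists_small ht₂0 (by norm_num [ht₂]) hε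
    refine ⟨t₂ / 4 ^ k, hk0, hkε, hk1, fun w L hw h0 h1 h2 h3 h4 hL => ?_⟩
    have hB : Bd t₂ 0 C := by
      intro w L hw h0 h1 h2 h3 h4 hL
      refine ⟨?_, phase_up w L hw h0 h1 h2 h3 h4 hL⟩
      have hp := window_pos hw ht₂0 h0 h1 h2 h3 h4
      exact ge_of_tendsto' hL (fun n => (hp n).le)
    have hBd := (Bd_iter ht₂0 (by norm_num [ht₂]) le_rfl (by positivity) hB k) w L hw h0 h1 h2 h3 h4 hL
    refine le_trans hBd.2 ?_
    rw [sqrt_div_pow ht₂0, div_mul_div_comm, div_le_div_iff₀ (by positivity) (by positivity)]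
    have hx : 0 < t₂ / 4 ^ k := hk0
    have h5 : C * (1 + t₂ - t₂ / 4 ^ k) * (√t₂ * 2 ^ k) ≤ C * (1 + t₂) * (√t₂ * 2 ^ k) := by
      gcongr
      linarith
    linarith

end Pool.Agent.Lib_helper35.RB
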