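import Pool.Agent.Lib_helper65.RB.Mean

/-! Block V2 of MP_247194_an (helper35). -/

namespace Pool.Agent.Lib_helper35.RB

open Filter Topology Pool.Agent.Lib_helper65.RB

/-- `y` for even `s`, `2 / y` for odd `s`. -/
noncomputable def zz (y : ℕ → ℝ) (s n : ℕ) : ℝ := if Even s then y n else 2 / y n

theorem sol_pos {a b : ℕ} (ha : 0 < a) (hab : a ≤ b) {y : ℕ → ℝ} (hy : IsSol a b y)
    (h0 : ∀ n < b, 0 < y n) : ∀ n, 0 < y n := by
  intro n
  induction n using Nat.strong_induction_on with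
  | _ n ih =>
    by_cases hn : n < b
    · exact h0 n hn
    · obtain ⟨m, rfl⟩ : ∃ m, n = m + b := ⟨n - b, by omega⟩
      rw [hy m]
      have h1 := ih (m + b - a) (by omega)
      have h2 := ih m (by omega)
      positivity

theorem zz_step {a b : ℕ} {y : ℕ → ℝ} (hy : IsSol a b y) (hp : ∀ n, 0 < y n) (s n : ℕ) :
    zz y (s + 1) (n + b) ≤ (zz y s (n + b - a) + zz y s n) / 2 := by
  have h1 := hp (n + b - a)
  have h2 := hp n
  unfold zz
  by_cases hs : Even s
  · have hs' : ¬ Even (s + 1) := by rw [Nat.even_add_one]; exact not_not.mpr hs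
    rw [if_neg hs', if_pos hs, if_pos hs, hy n]
    set u := y (n + b - a)
    set v := y n
    have e : 2 / (1 / u + 1 / v) = 2 * u * v / (u + v) := by
      field_simp
      ring
    rw [e, div_le_div_iff₀ (by positivity) (by positivity)]
    nlinarith [sq_nonneg (u - v)]
  · have hs' : Even (s + 1) := by rw [Nat.even_add_one]; exact hs
    rw [if_pos hs', if_neg hs, if_neg hs, hy n]
    apply le_of_eq
    ring

theorem zz_congr (y : ℕ → ℝ) {s s' : ℕ} (n : ℕ) (h : Even s ↔ Even s') : zz y s n = zz y s' n := by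
  unfold zz
  simp only [h]

theorem zz_band {a b : ℕ} {y : ℕ → ℝ} (ha : 0 < a) (hb : 0 < b) (hab : a ≤ b) (hy : IsSol a b y)
    (hp : ∀ n, 0 < y n) {k : ℕ} {M : ℝ}
    (h0 : ∀ n, k ≤ n → n < k + b → ∀ s, zz y s n ≤ M) :
    ∀ n, k ≤ n → ∀ s, zz y s n ≤ M := by
  intro n
  induction n using Nat.strong_induction_on with
  | _ n ih =>
    intro hk s
    by_cases hn : n < k + b
    · exact h0 n hk hn s
    · obtain ⟨j, rfl⟩ : ∃ j, n = j + b := ⟨n - b, by omega⟩
      have h1 := ih (j + b - a) (by omega) (by omega) (s + 1)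
      have h2 := ih j (by omega) (by omega) (s + 1)
      have h3 := zz_step hy hp (s + 1) j
      have h4 : zz y (s + 1 + 1) (j + b) = zz y s (j + b) := by
        apply zz_congr
        rw [Nat.even_add_one, Nat.even_add_one, not_not]
      rw [h4] at h3
      linarith

theorem zz_deficit {a b : ℕ} {y : ℕ → ℝ} (ha : 0 < a) (hab : a ≤ b) (hy : IsSol a b y)
    (hp : ∀ n, 0 < y n) {k : ℕ} {M : ℝ} (hM : ∀ n, k ≤ n → ∀ s, zz y s n ≤ M) {n₀ : ℕ}
    (hn₀ : k + b ≤ n₀) (s : ℕ) :
    ∀ i j : ℕ, (M - zz y s n₀) / 2 ^ (i + j) ≤ M - zz y (s + (i + j)) (n₀ + i * a + j * b) := by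
  have stepb : ∀ s n, k ≤ n → (M - zz y s n) / 2 ≤ M - zz y (s + 1) (n + b) := by
    intro s n hn
    have h1 := zz_step hy hp s n
    have h2 := hM (n + b - a) (by omega) s
    linarith
  have stepa : ∀ s n, k + b ≤ n → (M - zz y s n) / 2 ≤ M - zz y (s + 1) (n + a) := by
    intro s n hn
    obtain ⟨m, hm⟩ : ∃ m, n + a = m + b := ⟨n + a - b, by omega⟩
    have h1 := zz_step hy hp s m
    rw [← hm] at h1
    have h3 : n + a - a = n := by omega
    rw [h3] at h1
    have h2 := hM m (by omega) s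
    linarith
  intro i j
  induction j with
  | zero =>
    induction i with
    | zero => simp
    | succ i ih =>
      have h1 := stepa (s + (i + 0)) (n₀ + i * a + 0 * b) (by
        have : 0 ≤ i * a := Nat.zero_le _
        omega)
      have h2 : n₀ + (i + 1) * a + 0 * b = n₀ + i * a + 0 * b + a := by ring
      have h2' : s + (i + 1 + 0) = s + (i + 0) + 1 := by ring
      rw [h2, h2']
      refine le_trans ?_ h1
      have h3 : (M - zz y s n₀) / 2 ^ (i + 1 + 0) = (M - zz y s n₀) / 2 ^ (i + 0) / 2 := by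
        rw [div_div]; congr 1
      rw [h3]
      linarith
  | succ j ih =>
    have h1 := stepb (s + (i + j)) (n₀ + i * a + j * b) (by omega)
    have h2 : n₀ + i * a + (j + 1) * b = n₀ + i * a + j * b + b := by ring
    have h2' : s + (i + (j + 1)) = s + (i + j) + 1 := by ring
    rw [h2, h2']
    refine le_trans ?_ h1
    have h3 : (M - zz y s n₀) / 2 ^ (i + (j + 1)) = (M - zz y s n₀) / 2 ^ (i + j) / 2 := by
      rw [div_div]; congr 1
    rw [h3]
    linarith

/-- representation with a prescribed parity of the number of steps -/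
theorem exists_repr_parity {a b : ℕ} (ha : 0 < a) (hc : Nat.Coprime a b)
    (hpar : ¬ (Even a ↔ Even b)) {n : ℕ} (hn : 2 * (a * b) ≤ n) (e : Prop) [Decidable e] :
    ∃ i j : ℕ, n = i * a + j * b ∧ (Even (i + j) ↔ e) := by
  obtain ⟨i, j, hij⟩ := exists_repr ha hc (n := n - a * b) (by omega)
  by_cases h : (Even (i + b + j) ↔ e)
  · refine ⟨i + b, j, ?_, h⟩
    have : (i + b) * a + j * b = (i * a + j * b) + a * b := by ring
    omega
  · refine ⟨i, j + a, ?_, ?_⟩
    · have : i * a + (j + a) * b = (i * a + j * b) + a * b := by ring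
      omega
    · have h1 : Even (i + b + j) ↔ (Even (i + j) ↔ Even b) := by
        rw [show i + b + j = i + j + b by ring, Nat.even_add]
      have h2 : Even (i + (j + a)) ↔ (Even (i + j) ↔ Even a) := by
        rw [show i + (j + a) = i + j + a by ring, Nat.even_add]
      rw [h2]
      rw [h1] at h
      tauto

theorem zz_contract {a b : ℕ} {y : ℕ → ℝ} (ha : 0 < a) (hab : a ≤ b) (hc : Nat.Coprime a b)
    (hpar : ¬ (Even a ↔ Even b)) (hy : IsSol a b y)
    (hp : ∀ n, 0 < y n) {k : ℕ} {M : ℝ} (hM : ∀ n, k ≤ n → ∀ s, zz y s n ≤ M) :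
    ∃ k', ∀ n, k' ≤ n → ∀ s, zz y s n ≤ M - 1 / 2 ^ (2 * (a * b) + b) * (M - √2) := by
  have hb0 : 0 < b := by omega
  set n₀ := k + b with hn₀
  -- the good sign at `n₀`
  obtain ⟨s₀, hs₀⟩ : ∃ s₀, zz y s₀ n₀ ≤ √2 := by
    by_cases h : y n₀ ≤ √2
    · exact ⟨0, by simpa [zz] using h⟩
    · refine ⟨1, ?_⟩
      have h1 : zz y 1 n₀ = 2 / y n₀ := by simp [zz]
      rw [h1, div_le_iff₀ (hp n₀)]
      have h2 : √2 * √2 = 2 := Real.mul_self_sqrt (by norm_num)
      have h3 : (0 : ℝ) < √2 := by positivity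
      nlinarith [not_le.mp h]
  set η : ℝ := 1 / 2 ^ (2 * (a * b) + b) with hη
  refine ⟨n₀ + 2 * (a * b), zz_band ha hb0 hab hy hp ?_⟩
  intro n h1 h2 s
  classical
  obtain ⟨i, j, hij, hpar'⟩ := exists_repr_parity ha hc hpar (n := n - n₀) (by omega)
    (Even s ↔ Even s₀)
  have h3 := zz_deficit ha hab hy hp hM (n₀ := n₀) (by omega) s₀ i j
  have h4 : n₀ + i * a + j * b = n := by omega
  rw [h4] at h3
  have h5 : zz y (s₀ + (i + j)) n = zz y s n := by
    apply zz_congr
    rw [Nat.even_add, hpar']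
    tauto
  rw [h5] at h3
  have h6 : i + j ≤ 2 * (a * b) + b := by
    have e1 : i ≤ i * a := Nat.le_mul_of_pos_right i ha
    have e2 : j ≤ j * b := Nat.le_mul_of_pos_right j hb0
    omega
  have h7 : 0 ≤ M - zz y s₀ n₀ := by
    have := hM n₀ (by omega) s₀
    linarith
  have h8 : η * (M - zz y s₀ n₀) ≤ (M - zz y s₀ n₀) / 2 ^ (i + j) := by
    rw [hη, one_div, inv_mul_eq_div]
    apply div_le_div_of_nonneg_left h7 (by positivity)
    exact pow_le_pow_right₀ (by norm_num) h6
  have h9 : 0 < η := by rw [hη]; positivity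
  have h10 : η * (M - √2) ≤ η * (M - zz y s₀ n₀) := by
    apply mul_le_mul_of_nonneg_left _ h9.le
    linarith
  linarith

theorem tendsto_coprime {a b : ℕ} {y : ℕ → ℝ} (ha : 0 < a) (hab : a ≤ b) (hc : Nat.Coprime a b)
    (hpar : ¬ (Even a ↔ Even b)) (hy : IsSol a b y)
    (h0 : ∀ n < b, 0 < y n) : Tendsto y atTop (𝓝 (√2)) := by
  have hb0 : 0 < b := by omega
  have hp := sol_pos ha hab hy h0
  obtain ⟨n₁, hn₁, h₁⟩ := (Finset.range b).exists_max_image y ⟨0, by simp; omega⟩
  obtain ⟨n₂, hn₂, h₂⟩ := (Finset.range b).exists_max_image (fun n => 2 / y n) ⟨0, by simp; omega⟩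
  set M : ℝ := max (max (y n₁) (2 / y n₂)) (√2) with hM
  have hM2 : √2 ≤ M := le_max_right _ _
  set q : ℝ := 1 - 1 / 2 ^ (2 * (a * b) + b) with hq
  have hq0 : 0 ≤ q := by
    rw [hq, sub_nonneg, div_le_one (by positivity)]
    exact one_le_pow₀ (by norm_num)
  have hq1 : q < 1 := by
    rw [hq]; have : (0 : ℝ) < 1 / 2 ^ (2 * (a * b) + b) := by positivity
    linarith
  have hband : ∀ n, 0 ≤ n → ∀ s, zz y s n ≤ M := by
    apply zz_band ha hb0 hab hy hp
    intro n _ hn s
    have hn' : n ∈ Finset.range b := by simp; omega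
    unfold zz
    split_ifs
    · exact (h₁ n hn').trans ((le_max_left _ _).trans (le_max_left _ _))
    · exact (h₂ n hn').trans ((le_max_right _ _).trans (le_max_left _ _))
  have key : ∀ r : ℕ, ∃ k : ℕ, ∀ n, k ≤ n → ∀ s, zz y s n ≤ √2 + q ^ r * (M - √2) := by
    intro r
    induction r with
    | zero => exact ⟨0, fun n hn s => by simpa using hband n hn s⟩
    | succ r ih =>
      obtain ⟨k, hk⟩ := ih
      obtain ⟨k', hk'⟩ := zz_contract ha hab hc hpar hy hp hk
      refine ⟨k', fun n hn s => (hk' n hn s).trans (le_of_eq ?_)⟩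
      rw [pow_succ, hq]
      ring
  rw [Metric.tendsto_atTop]
  intro ε hε
  have ht : Tendsto (fun r : ℕ => q ^ r * (M - √2)) atTop (𝓝 (0 * (M - √2))) :=
    (tendsto_pow_atTop_nhds_zero_of_lt_one hq0 hq1).mul_const _
  rw [zero_mul] at ht
  obtain ⟨r, hr⟩ := (ht.eventually (gt_mem_nhds hε)).exists
  obtain ⟨k, hk⟩ := key r
  refine ⟨k, fun n hn => ?_⟩
  have e1 := hk n hn 0
  have e2 := hk n hn 1
  have e3 : zz y 0 n = y n := by simp [zz]
  have e4 : zz y 1 n = 2 / y n := by simp [zz]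
  rw [e3] at e1
  rw [e4] at e2
  set δ : ℝ := q ^ r * (M - √2) with hδ
  have hδ0 : 0 ≤ δ := mul_nonneg (pow_nonneg hq0 r) (by linarith)
  rw [div_le_iff₀ (hp n)] at e2
  have h2 : √2 * √2 = 2 := Real.mul_self_sqrt (by norm_num)
  have h3 : (0 : ℝ) < √2 := by positivity
  rw [Real.dist_eq, abs_lt]
  constructor
  · by_contra hcon
    have h4 : y n ≤ √2 - ε := by linarith
    have h5 : (√2 + δ) * y n ≤ (√2 + δ) * (√2 - ε) := by
      apply mul_le_mul_of_nonneg_left h4 (by linarith)
    nlinarith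
  · linarith

theorem tendsto_of_v2 (a b : ℕ) (ha : 0 < a) (hab : a ≤ b)
    (hv : padicValNat 2 a ≠ padicValNat 2 b) (y : ℕ → ℝ) (hy : IsSol a b y)
    (h0 : ∀ n < b, 0 < y n) : Tendsto y atTop (𝓝 (√2)) := by
  have hb0 : 0 < b := by omega
  have hp := sol_pos ha hab hy h0
  obtain ⟨d, a', b', hd0, hc, ha', hb'⟩ := Nat.exists_coprime' (m := a) (n := b)
    (Nat.gcd_pos_of_pos_left b ha)
  rw [mul_comm] at ha' hb'
  have ha0' : 0 < a' := by
    rcases Nat.eq_zero_or_pos a' with h | h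
    · subst h; omega
    · exact h
  have hb0' : 0 < b' := by
    rcases Nat.eq_zero_or_pos b' with h | h
    · subst h; omega
    · exact h
  have hab' : a' ≤ b' := by
    rw [ha', hb'] at hab
    exact Nat.le_of_mul_le_mul_left hab hd0
  have hpar : ¬ (Even a' ↔ Even b') := by
    intro hiff
    have hodd_a : ¬ Even a' := by
      intro hea
      have heb := hiff.mp hea
      have h1 := Nat.dvd_gcd (even_iff_two_dvd.mp hea) (even_iff_two_dvd.mp heb)
      rw [hc] at h1
      omega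
    have hodd_b : ¬ Even b' := fun h => hodd_a (hiff.mpr h)
    apply hv
    rw [ha', hb', padicValNat.mul hd0.ne' ha0'.ne', padicValNat.mul hd0.ne' hb0'.ne',
      padicValNat.eq_zero_of_not_dvd (fun h => hodd_a (even_iff_two_dvd.mpr h)),
      padicValNat.eq_zero_of_not_dvd (fun h => hodd_b (even_iff_two_dvd.mpr h))]
  have hres : ∀ r : ℕ, Tendsto (fun j => y (d * j + r)) atTop (𝓝 (√2)) := by
    intro r
    apply tendsto_coprime ha0' hab' hc hpar
    · intro n
      have h1 := hy (d * n + r)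
      have e1 : d * n + r + b = d * (n + b') + r := by rw [hb']; ring
      have e2 : d * (n + b') + r - a = d * (n + b' - a') + r := by
        have : d * (n + b') = d * (n + b' - a') + d * a' := by
          rw [← mul_add]; congr 1; omega
        rw [this, ha']; omega
      rw [e1, e2] at h1
      exact h1
    · intro n _
      exact hp _
  rw [Metric.tendsto_atTop]
  intro ε hε
  have hK : ∀ r : ℕ, ∃ K : ℕ, ∀ j, K ≤ j → dist (y (d * j + r)) (√2) < ε := fun r =>
    Metric.tendsto_atTop.mp (hres r) ε hε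
  choose K hK using hK
  refine ⟨d * ((Finset.range d).sup K), fun n hn => ?_⟩
  have h1 : n % d < d := Nat.mod_lt _ hd0
  have h2 : K (n % d) ≤ n / d := by
    refine (Finset.le_sup (f := K) (Finset.mem_range.mpr h1)).trans ?_
    rw [Nat.le_div_iff_mul_le hd0, mul_comm]
    exact hn
  have h3 := hK (n % d) (n / d) h2
  rwa [Nat.div_add_mod] at h3

end Pool.Agent.Lib_helper35.RB
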